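import Mathlib

/-! Class-preserving automorphisms and the class-preserving outer automorphism group. -/

namespace Pool.Agent.MP_1f2b6a_al

/-- The group of class-preserving automorphisms of `G`. -/
def Autc (G : Type*) [Group G] : Subgroup (MulAut G) where
  carrier := {α | ∀ x, IsConj (α x) x}
  one_mem' := fun x => IsConj.refl x
  mul_mem' := fun {α β} hα hβ x => (hα (β x)).trans (hβ x)
  inv_mem' := fun {α} hα x => by
    have h := hα (α⁻¹ x)
    rw [MulAut.apply_inv_self] at h
    exact h.symm

/-- The inner automorphisms, as a subgroup of the class-preserving automorphisms. -/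
def InnAutc (G : Type*) [Group G] : Subgroup (Autc G) :=
  (MulAut.conj : G →* MulAut G).range.subgroupOf (Autc G)

instance InnAutc_normal (G : Type*) [Group G] : (InnAutc G).Normal where
  conj_mem := by
    rintro n ⟨x, hx⟩ α
    refine ⟨(α : MulAut G) x, ?_⟩
    have hx' : (n : MulAut G) = MulAut.conj x := hx.symm
    ext g
    simp [hx']

/-- The class-preserving outer automorphism group. -/
abbrev Outc (G : Type*) [Group G] := Autc G ⧸ InnAutc G

end Pool.Agent.MP_1f2b6a_al
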